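import Mathlib

/-!
# Finite index subgroups of finitely presented groups are finitely presented
-/

set_option autoImplicit false

namespace Pool.Agent.H67.CConj

open Group

/-- Passing to a finite index subgroup keeps the property of being normally finitely generated. -/
theorem fng_subgroupOf {F : Type*} [Group F] (K : Subgroup F) [K.FiniteIndex]
    (R : Subgroup F) [R.Normal] (hRK : R ≤ K) (hR : R.IsFinitelyNormallyGenerated) :
    (R.subgroupOf K).IsFinitelyNormallyGenerated := by
  obtain ⟨S, hSfin, hS⟩ := hR
  have : Finite S := hSfin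
  have : Finite (F ⧸ K) := Subgroup.finite_quotient_of_finiteIndex
  have hSR : ∀ s ∈ S, s ∈ R := fun s hs => hS ▸ Subgroup.subset_normalClosure hs
  have hconj : ∀ (f s : F), s ∈ S → f * s * f⁻¹ ∈ R := fun f s hs =>
    ‹R.Normal›.conj_mem s (hSR s hs) f
  let θ : (F ⧸ K) × S → K := fun p =>
    ⟨(Quotient.out p.1)⁻¹ * p.2.1 * (Quotient.out p.1), hRK (by
      have := hconj (Quotient.out p.1)⁻¹ p.2.1 p.2.2
      rwa [inv_inv] at this)⟩
  refine ⟨Set.range θ, Set.finite_range θ, ?_⟩
  apply le_antisymm
  · apply Subgroup.normalClosure_le_normal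
    rintro _ ⟨p, rfl⟩
    have h1 := hconj (Quotient.out p.1)⁻¹ p.2.1 p.2.2
    rw [inv_inv] at h1
    exact Subgroup.mem_subgroupOf.mpr h1
  · -- the conjugates of `S` lie in the image of the normal closure
    have key : ∀ f s : F, s ∈ S →
        f * s * f⁻¹ ∈ (Subgroup.normalClosure (Set.range θ)).map K.subtype := by
      intro f s hs
      set q : F ⧸ K := QuotientGroup.mk f⁻¹ with hq
      have hout : f⁻¹⁻¹ * Quotient.out q ∈ K := by
        rw [← QuotientGroup.eq]
        rw [QuotientGroup.out_eq']
      rw [inv_inv] at hout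
      set k : K := ⟨f * Quotient.out q, hout⟩ with hk
      have h0 : θ (q, ⟨s, hs⟩) ∈ Set.range θ := Set.mem_range_self _
      have h1 : k * θ (q, ⟨s, hs⟩) * k⁻¹ ∈ Subgroup.normalClosure (Set.range θ) :=
        Subgroup.Normal.conj_mem Subgroup.normalClosure_normal _
          (Subgroup.subset_normalClosure h0) k
      refine ⟨_, h1, ?_⟩
      simp only [Subgroup.coe_subtype, Subgroup.coe_mul, InvMemClass.coe_inv, hk, θ]
      group
    have h2 : R ≤ (Subgroup.normalClosure (Set.range θ)).map K.subtype := by
      rw [← hS]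
      unfold Subgroup.normalClosure
      rw [Subgroup.closure_le]
      intro x hx
      obtain ⟨s, hs, hsx⟩ := Group.mem_conjugatesOfSet_iff.mp hx
      obtain ⟨c, hc⟩ := isConj_iff.mp hsx
      rw [← hc]
      exact key c s hs
    intro x hx
    have h3 : (x : F) ∈ R := Subgroup.mem_subgroupOf.mp hx
    obtain ⟨y, hy, hyx⟩ := h2 h3
    have : y = x := Subtype.ext hyx
    rw [← this]; exact hy

/-- A finitely generated free group has finite rank. -/
theorem finite_of_fg_freeGroup {α : Type*} (h : Group.FG (FreeGroup α)) : Finite α := by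
  classical
  by_contra hinf
  rw [not_finite_iff_infinite] at hinf
  obtain ⟨S, hS⟩ := (Group.fg_def.mp h : (⊤ : Subgroup (FreeGroup α)).FG)
  -- every element only involves finitely many letters
  have hsupp : ∀ w : FreeGroup α, ∃ A : Finset α,
      w ∈ Subgroup.closure (FreeGroup.of '' (A : Set α)) := by
    intro w
    induction w using FreeGroup.induction_on with
    | C1 => exact ⟨∅, Subgroup.one_mem _⟩
    | of x => exact ⟨{x}, Subgroup.subset_closure ⟨x, by simp, rfl⟩⟩
    | inv_of x ih =>
      obtain ⟨A, hA⟩ := ih
      exact ⟨A, Subgroup.inv_mem _ hA⟩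
    | mul x y ihx ihy =>
      obtain ⟨A, hA⟩ := ihx
      obtain ⟨B, hB⟩ := ihy
      refine ⟨A ∪ B, Subgroup.mul_mem _ ?_ ?_⟩
      · exact Subgroup.closure_mono (Set.image_mono (by simp)) hA
      · exact Subgroup.closure_mono (Set.image_mono (by simp)) hB
  choose A hA using hsupp
  obtain ⟨x, hx⟩ := Infinite.exists_notMem_finset (S.biUnion A)
  let f : FreeGroup α →* Multiplicative ℤ :=
    FreeGroup.lift (fun y => if y = x then Multiplicative.ofAdd 1 else 1)
  have hker : ∀ w : FreeGroup α, f w = 1 := by
    intro w
    have hw : w ∈ Subgroup.closure (S : Set (FreeGroup α)) := by rw [hS]; trivial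
    have hle : Subgroup.closure (S : Set (FreeGroup α)) ≤ f.ker := by
      rw [Subgroup.closure_le]
      intro s hs
      have h1 : Subgroup.closure (FreeGroup.of '' (A s : Set α)) ≤ f.ker := by
        rw [Subgroup.closure_le]
        rintro _ ⟨y, hy, rfl⟩
        have hyx : y ≠ x := by
          rintro rfl
          exact hx (Finset.mem_biUnion.mpr ⟨s, hs, hy⟩)
        simp [MonoidHom.mem_ker, f, hyx]
      exact h1 (hA s)
    exact hle hw
  have := hker (FreeGroup.of x)
  simp [f] at this

/-- A finite index subgroup of a finitely presented group is finitely presented. -/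
theorem isFinitelyPresented_of_finiteIndex {G : Type*} [Group G] [hG : IsFinitelyPresented G]
    (H : Subgroup G) [H.FiniteIndex] : IsFinitelyPresented H := by
  obtain ⟨n, φ, hφ, hker⟩ := hG.out
  set K : Subgroup (FreeGroup (Fin n)) := H.comap φ with hK
  have : K.FiniteIndex := by
    constructor
    rw [hK, Subgroup.index_comap_of_surjective H hφ]
    exact Subgroup.FiniteIndex.index_ne_zero
  have : Group.FG K := inferInstance
  have : IsFreeGroup K := inferInstance
  have : Group.FG (FreeGroup (IsFreeGroup.Generators K)) := by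
    have e := (IsFreeGroup.toFreeGroup K)
    exact Group.fg_of_surjective (f := e.toMonoidHom) e.surjective
  have : Finite (IsFreeGroup.Generators K) := finite_of_fg_freeGroup inferInstance
  have : IsFinitelyPresented K := IsFinitelyPresented.equiv (IsFreeGroup.toFreeGroup K).symm
  -- the restriction of `φ`
  let ψ : K →* H := φ.subgroupComap H
  have hψ : Function.Surjective ψ := MonoidHom.subgroupComap_surjective_of_surjective φ H hφ
  refine IsFinitelyPresented.of_surjective ψ hψ ?_
  have hψk : ψ.ker = φ.ker.subgroupOf K := by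
    ext x
    simp only [MonoidHom.mem_ker, Subgroup.mem_subgroupOf, ψ]
    rw [← Subtype.coe_inj]
    rfl
  rw [hψk]
  apply fng_subgroupOf K φ.ker _ hker
  intro x hx
  rw [hK, Subgroup.mem_comap, MonoidHom.mem_ker.mp hx]
  exact H.one_mem

end Pool.Agent.H67.CConj
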