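import Pool.Agent.H67.CConj.Tree

/-!
# Groups of elliptic isometries of 0-hyperbolic spaces
-/

set_option autoImplicit false

namespace Pool.Agent.H67.CConj

variable {X : Type*} [MetricSpace X]
variable {G : Type*} [Group G] [MulAction G X] [IsIsometricSMul G X]

/-- If every element is elliptic then `g ↦ d(x, g x)` is an ultrametric norm. -/
theorem ell_ultra (h4 : FourPt X) (x : X)
    (hell : ∀ g : G, dist x (g ^ 2 • x) ≤ dist x (g • x)) (g h : G) :
    dist x ((g * h) • x) ≤ max (dist x (g • x)) (dist x (h • x)) := by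
  by_contra hcon
  push Not at hcon
  have hg0 : dist x (g • x) < dist x ((g * h) • x) := lt_of_le_of_lt (le_max_left _ _) hcon
  have hh0 : dist x (h • x) < dist x ((g * h) • x) := lt_of_le_of_lt (le_max_right _ _) hcon
  -- basic displacement identities
  have inv1 : ∀ k : G, dist x (k⁻¹ • x) = dist x (k • x) := by
    intro k
    rw [← dist_smul_inv k x x, dist_comm]
  have key : ∀ a b : G, dist (a • x) (b • x) = dist x ((a⁻¹ * b) • x) := by
    intro a b
    rw [dist_smul_inv, mul_smul]
  set κ : ℝ := dist x (g • x) + dist x (h • x) - dist x ((g * h) • x) with hκ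
  -- Gromov products at `x`
  have p1 : gp x (g⁻¹ • x) (h • x) ≤ κ := by
    unfold gp
    rw [key, inv1, inv_inv]
  have p2 : κ < gp x (g • x) (g⁻¹ • x) := by
    unfold gp
    rw [key, inv1]
    have h1 : dist x ((g⁻¹ * g⁻¹) • x) = dist x (g ^ 2 • x) := by
      rw [← inv1 (g ^ 2)]
      congr 2
      group
    rw [h1]
    have := hell g
    linarith
  have p3 : κ < gp x (h⁻¹ • x) (h • x) := by
    unfold gp
    rw [key, inv1, inv_inv, ← pow_two]
    have := hell h
    linarith
  have p4 : κ < gp x ((g * h) • x) (g • x) := by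
    unfold gp
    rw [key]
    have h1 : dist x (((g * h)⁻¹ * g) • x) = dist x (h • x) := by
      rw [← inv1 h]; congr 2; group
    rw [h1]
    linarith
  have p5 : κ < gp x ((g * h)⁻¹ • x) (h⁻¹ • x) := by
    unfold gp
    rw [key, inv1, inv1]
    have h1 : dist x (((g * h)⁻¹⁻¹ * h⁻¹) • x) = dist x (g • x) := by
      congr 2; group
    rw [h1]
    linarith
  have p6 : κ < gp x ((g * h) • x) ((g * h)⁻¹ • x) := by
    unfold gp
    rw [key, inv1]
    have h1 : dist x (((g * h)⁻¹ * (g * h)⁻¹) • x) = dist x ((g * h) ^ 2 • x) := by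
      rw [← inv1 ((g * h) ^ 2)]
      congr 2
      simp [pow_two, mul_inv_rev, mul_assoc]
    rw [h1]
    have := hell (g * h)
    linarith
  -- the chain
  have q1 : gp x (g • x) (h • x) ≤ κ := gp_chain h4 p2 p1
  have q2 : gp x (h⁻¹ • x) (g • x) ≤ κ := by
    apply gp_chain h4 p3
    rw [gp_comm]
    exact q1
  have q3 : gp x ((g * h) • x) (h⁻¹ • x) ≤ κ := by
    apply gp_chain h4 p4
    rw [gp_comm]
    exact q2
  have q4 : gp x ((g * h)⁻¹ • x) ((g * h) • x) ≤ κ := by
    apply gp_chain h4 p5
    rw [gp_comm]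
    exact q3
  rw [gp_comm] at q4
  linarith

/-- A finitely generated group of elliptic isometries of a 0-hyperbolic space with midpoints
has a global fixed point. -/
theorem ell_fixed [Group.FG G] [Nonempty X] (h4 : FourPt X) (hm : HasMid X)
    (hell : ∀ (x : X) (g : G), dist x (g ^ 2 • x) ≤ dist x (g • x)) :
    ∃ p : X, ∀ g : G, g • p = p := by
  obtain ⟨x⟩ := ‹Nonempty X›
  obtain ⟨S, hS⟩ := (Group.fg_def.mp ‹Group.FG G› : (⊤ : Subgroup G).FG)
  classical
  -- include the identity so that the set is nonempty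
  set S' : Finset G := insert 1 S with hS'
  have hne : S'.Nonempty := ⟨1, Finset.mem_insert_self 1 S⟩
  obtain ⟨s, hs, hsmax⟩ := S'.exists_max_image (fun g => dist x (g • x)) hne
  have hbound : ∀ g : G, dist x (g • x) ≤ dist x (s • x) := by
    intro g
    have hg : g ∈ Subgroup.closure (S : Set G) := by rw [hS]; trivial
    induction hg using Subgroup.closure_induction with
    | mem y hy => exact hsmax y (Finset.mem_insert_of_mem (by exact_mod_cast hy))
    | one => simp
    | mul a b _ _ ha hb =>
      exact le_trans (ell_ultra h4 x (hell x) a b) (max_le ha hb)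
    | inv a _ ha =>
      have : dist x (a⁻¹ • x) = dist x (a • x) := by
        rw [← dist_smul_inv a x x, dist_comm]
      rw [this]; exact ha
  obtain ⟨p, hp1, hp2⟩ := hm x (s • x)
  refine ⟨p, fun g => ?_⟩
  have key : ∀ a b : G, dist (a • x) (b • x) ≤ dist x (s • x) := by
    intro a b
    rw [dist_smul_inv, ← mul_smul]
    exact hbound _
  have hpa : ∀ a : G, dist p (a • x) ≤ dist x (s • x) / 2 := by
    intro a
    have h1 := dist_mid h4 hp1 hp2 (a • x)
    have h2 : dist x (a • x) ≤ dist x (s • x) := hbound a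
    have h3 := key s a
    have := max_le h2 h3
    linarith
  have h1 := dist_mid h4 hp1 hp2 (g⁻¹ • p)
  have h2 : dist x (g⁻¹ • p) ≤ dist x (s • x) / 2 := by
    rw [← dist_smul_inv, dist_comm]; exact hpa g
  have h3 : dist (s • x) (g⁻¹ • p) ≤ dist x (s • x) / 2 := by
    rw [← dist_smul_inv, dist_comm, ← mul_smul]; exact hpa _
  have h4' := max_le h2 h3
  have h5 : dist p (g⁻¹ • p) ≤ 0 := by linarith
  have h6 : p = g⁻¹ • p := dist_le_zero.mp h5
  rw [eq_inv_smul_iff] at h6
  exact h6

end Pool.Agent.H67.CConj
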