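import Pool.Agent.H67.CConj.Ell

/-!
# Property (C) and hyperbolic isometries of 0-hyperbolic spaces
-/

set_option autoImplicit false

namespace Pool.Agent.H67.CConj

variable {X : Type*} [MetricSpace X]
variable {G : Type*} [Group G] [MulAction G X] [IsIsometricSMul G X]

theorem dist_conj (c g : G) (x : X) :
    dist x ((c * g * c⁻¹) • x) = dist (c⁻¹ • x) (g • c⁻¹ • x) := by
  rw [mul_smul, mul_smul]
  have := dist_smul_inv c⁻¹ x (g • c⁻¹ • x)
  rw [inv_inv] at this
  exact this.symm

theorem dist_inv_self (g : G) (x : X) : dist x (g⁻¹ • x) = dist x (g • x) := by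
  rw [← dist_smul_inv, dist_comm]

theorem conj_pow' (c g : G) (n : ℕ) : (c * g * c⁻¹) ^ n = c * g ^ n * c⁻¹ := conj_pow

/-- The data of an axis of `a` through `o`: `a` translates by `l > 0` and all increments of
`a` equal `l`. -/
structure Axis (a : G) (o : X) (l : ℝ) : Prop where
  pos : 0 < l
  one : dist o (a • o) = l
  inc : ∀ y : X, dist y (a ^ 2 • y) = dist y (a • y) + l

theorem exists_axis (h4 : FourPt X) (hm : HasMid X) (a : G) (x : X)
    (h : dist x (a • x) < dist x (a ^ 2 • x)) :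
    ∃ (o : X) (l : ℝ), Axis a o l := by
  obtain ⟨o, ho1, ho2⟩ := hm x (a • x)
  have hb := fun y => hyp_base h4 a x y h
  set l : ℝ := dist x (a ^ 2 • x) - dist x (a • x) with hl
  have hl0 : 0 < l := by rw [hl]; linarith
  refine ⟨o, l, hl0, ?_, fun y => by have := hb y; linarith⟩
  -- lower bound
  have hlow : l ≤ dist o (a • o) := by
    have h1 := hb o
    have h2 := dist_triangle o (a • o) (a ^ 2 • o)
    have h3 : dist (a • o) (a ^ 2 • o) = dist o (a • o) := by
      rw [pow_two, mul_smul, dist_smul]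
    linarith
  -- upper bound
  have e1 : dist (a • x) (a ^ 2 • x) = dist x (a • x) := by
    rw [pow_two, mul_smul, dist_smul]
  have h1 := dist_mid h4 ho1 ho2 (a ^ 2 • x)
  rw [e1, max_eq_left (le_of_lt h)] at h1
  have h2 := dist_mid h4 ho1 ho2 (a • o)
  have e2 : dist x (a • o) ≤ dist x (a ^ 2 • x) - dist x (a • x) / 2 := by
    -- `d(x, a o) = d(a x, a² x)`-type estimate through the midpoint `a o` of `a x, a² x`
    have e3 : dist (a • x) (a • o) = dist (a • x) (a • (a • x)) / 2 := by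
      rw [dist_smul, dist_smul, ho1]
    have e4 : dist (a • o) (a • (a • x)) = dist (a • x) (a • (a • x)) / 2 := by
      rw [dist_smul, dist_smul, ho2]
    have h5 := dist_mid h4 e3 e4 x
    rw [dist_smul, dist_comm (a • o) x, dist_comm (a • x) x, ← mul_smul, ← pow_two,
      dist_comm (a ^ 2 • x) x, max_eq_right (le_of_lt h)] at h5
    exact h5
  have e3 : dist (a • x) (a • o) = dist x (a • x) / 2 := by
    rw [dist_smul, ho1]
  rw [e3] at h2
  have h6 : max (dist x (a • o)) (dist x (a • x) / 2) ≤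
      dist x (a ^ 2 • x) - dist x (a • x) / 2 := max_le e2 (by linarith)
  apply le_antisymm _ hlow
  rw [hl]
  linarith

section

variable {a : G} {o : X} {l : ℝ}

theorem Axis.nat (h4 : FourPt X) (H : Axis a o l) (y : X) (n : ℕ) :
    dist y (a ^ (n + 1) • y) = dist y (a • y) + n * l := by
  have h1 := H.inc y
  have h2 := H.pos
  have h3 := seq_hyp h4 a y (by linarith) n
  rw [h3, h1]; ring

theorem Axis.natO (h4 : FourPt X) (H : Axis a o l) (n : ℕ) :
    dist o (a ^ n • o) = n * l := by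
  cases n with
  | zero => simp
  | succ k => rw [H.nat h4 o k, H.one]; push_cast; ring

theorem Axis.int (h4 : FourPt X) (H : Axis a o l) (n : ℤ) :
    dist o (a ^ n • o) = |(n : ℝ)| * l := by
  rcases Int.natAbs_eq n with h | h
  · rw [h, zpow_natCast, H.natO h4]
    simp
  · rw [h, zpow_neg, zpow_natCast, ← dist_smul_inv, dist_comm, H.natO h4]
    simp

theorem Axis.int2 (h4 : FourPt X) (H : Axis a o l) (m n : ℤ) :
    dist (a ^ m • o) (a ^ n • o) = |(n : ℝ) - m| * l := by
  rw [dist_smul_inv, ← mul_smul, ← zpow_neg, ← zpow_add, H.int h4]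
  push_cast
  rw [show -(m : ℝ) + n = n - m by ring]

/-- No nontrivial element fixes a point. -/
theorem Axis.free (h4 : FourPt X) (H : Axis a o l) (hC : ∀ g : G, ∃ k : ℤ, IsConj g (a ^ k))
    (g : G) (v : X) (hv : g • v = v) : g = 1 := by
  obtain ⟨k, hk⟩ := hC g
  obtain ⟨c, hc⟩ := isConj_iff.mp hk
  by_cases hk0 : k = 0
  · subst hk0
    rw [zpow_zero] at hc
    have : g = c⁻¹ * (c * g * c⁻¹) * c := by group
    rw [this, hc]; group
  · exfalso
    -- `a ^ k` fixes `c v`
    have h1 : a ^ k • (c • v) = c • v := by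
      rw [← hc, ← mul_smul, inv_mul_cancel_right, mul_smul, hv]
    have h2 : a ^ k.natAbs • (c • v) = c • v := by
      rcases Int.natAbs_eq k with h | h
      · rw [h, zpow_natCast] at h1; exact h1
      · rw [h, zpow_neg, zpow_natCast, inv_smul_eq_iff] at h1
        exact h1.symm
    obtain ⟨n, hn⟩ : ∃ n, k.natAbs = n + 1 :=
      Nat.exists_eq_succ_of_ne_zero (Int.natAbs_ne_zero.mpr hk0)
    rw [hn] at h2
    have h3 := H.nat h4 (c • v) n
    rw [h2, dist_self] at h3
    have h4' : (0 : ℝ) ≤ dist (c • v) (a • c • v) := dist_nonneg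
    have h5 : (0 : ℝ) ≤ n * l := mul_nonneg (Nat.cast_nonneg n) H.pos.le
    have h6 : dist (c • v) (a • c • v) = 0 := by linarith
    have h7 : a • c • v = c • v := (dist_eq_zero.mp h6).symm
    have h8 := H.inc (c • v)
    rw [pow_two, mul_smul, h7, h7, dist_self] at h8
    have := H.pos
    linarith

/-- Increments of conjugates of `a` and `a⁻¹`. -/
theorem Axis.conj_inc (h4 : FourPt X) (H : Axis a o l) (y : G) (v : X) (n : ℕ) :
    dist v ((y * a * y⁻¹) ^ (n + 1) • v) = dist v ((y * a * y⁻¹) • v) + n * l := by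
  rw [conj_pow', dist_conj, dist_conj, H.nat h4]

theorem Axis.conj_inv_inc (h4 : FourPt X) (H : Axis a o l) (y : G) (v : X) (n : ℕ) :
    dist v ((y * a⁻¹ * y⁻¹) ^ (n + 1) • v) = dist v ((y * a⁻¹ * y⁻¹) • v) + n * l := by
  rw [conj_pow', dist_conj, dist_conj, inv_pow, dist_inv_self, dist_inv_self, H.nat h4]

/-- Every nontrivial element is a positive power of an element with the increments of `a`. -/
theorem Axis.root (h4 : FourPt X) (H : Axis a o l) (hC : ∀ g : G, ∃ k : ℤ, IsConj g (a ^ k))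
    (w : G) (hw : w ≠ 1) :
    ∃ (c : G) (K : ℕ), c ^ (K + 1) = w ∧
      ∀ (v : X) (n : ℕ), dist v (c ^ (n + 1) • v) = dist v (c • v) + n * l := by
  obtain ⟨k, hk⟩ := hC w
  obtain ⟨c, hc⟩ := isConj_iff.mp hk
  have hw' : w = c⁻¹ * a ^ k * c := by rw [← hc]; group
  have hk0 : k ≠ 0 := by
    rintro rfl
    apply hw
    rw [hw']; group
  obtain ⟨n, hn⟩ : ∃ n, k.natAbs = n + 1 :=
    Nat.exists_eq_succ_of_ne_zero (Int.natAbs_ne_zero.mpr hk0)
  rcases Int.natAbs_eq k with h | h
  · refine ⟨c⁻¹ * a * c⁻¹⁻¹, n, ?_, fun v m => H.conj_inc h4 c⁻¹ v m⟩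
    rw [conj_pow', hw', h, hn, zpow_natCast, inv_inv]
  · refine ⟨c⁻¹ * a⁻¹ * c⁻¹⁻¹, n, ?_, fun v m => H.conj_inv_inc h4 c⁻¹ v m⟩
    rw [conj_pow', hw', h, hn, zpow_neg, zpow_natCast, inv_inv, inv_pow]

/-- The main local step. -/
theorem Axis.local (h4 : FourPt X) (H : Axis a o l) (hC : ∀ g : G, ∃ k : ℤ, IsConj g (a ^ k))
    (w : G) (v : X) (hv : dist v (a • v) = l) (hv2 : dist (a⁻¹ • v) (a • v) = 2 * l)
    (h1 : dist v (w • v) = dist (a • v) (w • v) + l)
    (h2 : dist v (w • v) = dist v (w • a⁻¹ • v) + l) :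
    w ∈ Subgroup.zpowers a := by
  have hl := H.pos
  -- no backtracking at `w v`
  have hv' : dist v (a⁻¹ • v) = l := by rw [← dist_smul_inv, dist_comm]; exact hv
  have c1 : 0 < gp (w • v) v (w • a⁻¹ • v) := by
    unfold gp
    rw [dist_smul, hv', dist_comm (w • v) v]
    linarith
  have c2 : gp (w • v) (w • a⁻¹ • v) (w • a • v) ≤ 0 := by
    unfold gp
    rw [dist_smul, dist_smul, dist_smul, hv', hv, hv2]
    linarith
  have c3 : 0 < gp (w • v) (w • w • v) (w • a • v) := by
    unfold gp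
    rw [dist_smul, dist_smul, dist_smul, hv, dist_comm (w • v) (a • v)]
    linarith
  have c4 : gp (w • v) v (w • a • v) ≤ 0 := gp_chain h4 c1 c2
  have c5 : gp (w • v) (w • w • v) v ≤ 0 := by
    apply gp_chain h4 c3
    rw [gp_comm]; exact c4
  have c6 : 2 * dist v (w • v) ≤ dist v (w • w • v) := by
    unfold gp at c5
    rw [dist_smul, dist_comm (w • v) v, dist_comm (w • w • v) v] at c5
    linarith
  -- `w` is a positive power of some `c`
  have hw1 : w ≠ 1 := by
    rintro rfl
    rw [one_smul, dist_self] at h1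
    have : (0 : ℝ) ≤ dist (a • v) v := dist_nonneg
    linarith
  obtain ⟨c, K, hcK, hc⟩ := H.root h4 hC w hw1
  have d1 : dist v (w • v) = dist v (c • v) + K * l := by rw [← hcK]; exact hc v K
  have d2 : dist v (w • w • v) = dist v (c • v) + (2 * K + 1) * l := by
    rw [← mul_smul, ← hcK, ← pow_add, show K + 1 + (K + 1) = (2 * K + 1) + 1 by ring,
      hc v (2 * K + 1)]
    push_cast; ring
  have d3 : l ≤ dist v (c • v) := by
    have e1 := hc v 1
    have e2 := dist_triangle v (c • v) (c ^ (1 + 1) • v)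
    have e3 : dist (c • v) (c ^ (1 + 1) • v) = dist v (c • v) := by
      rw [show 1 + 1 = 2 from rfl, pow_two, mul_smul, dist_smul]
    rw [e1, e3] at e2
    push_cast at e2
    linarith
  have d4 : dist v (c • v) = l := by
    apply le_antisymm _ d3
    rw [d1, d2] at c6
    linarith
  rw [d4] at d1
  have d5 : dist (c • v) (w • v) = K * l := by
    rw [← hcK, pow_succ', mul_smul, dist_smul]
    cases K with
    | zero => simp
    | succ k => rw [hc v k, d4]; push_cast; ring
  have d6 : dist (a • v) (w • v) = K * l := by linarith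
  have d7 := h4 (c • v) (a • v) v (w • v)
  rw [dist_comm (c • v) v, dist_comm (a • v) v, d4, d6, d5, hv, d1] at d7
  rw [add_comm (K * l) l, max_self] at d7
  have d8 : dist (c • v) (a • v) ≤ 0 := by linarith
  have d9 : c • v = a • v := dist_le_zero.mp d8
  have d10 : (a⁻¹ * c) • v = v := by rw [mul_smul, d9, inv_smul_smul]
  have d11 := H.free h4 hC (a⁻¹ * c) v d10
  have d12 : c = a := by
    rw [inv_mul_eq_one] at d11; exact d11.symm
  rw [← hcK, d12]
  exact Subgroup.mem_zpowers_iff.mpr ⟨(K + 1 : ℕ), zpow_natCast a (K + 1)⟩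

/-- The distances to the ray `a ^ i o` eventually grow at full speed. -/
theorem Axis.eventually (h4 : FourPt X) (H : Axis a o l) (z : X) :
    ∃ i₀ : ℕ, ∀ i : ℕ, i₀ ≤ i → dist z (a ^ (i + 1) • o) = dist z (a ^ i • o) + l := by
  have hl := H.pos
  obtain ⟨i₀, hi₀⟩ := exists_nat_gt (dist z o / l)
  rw [div_lt_iff₀ hl] at hi₀
  refine ⟨i₀, fun i hi => ?_⟩
  have hi' : (i₀ : ℝ) ≤ i := by exact_mod_cast hi
  have hi2 : dist z o < i * l := by nlinarith
  have e1 : dist (a ^ (i + 1) • o) (a ^ i • o) = l := by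
    rw [dist_comm, dist_pow_add, pow_one, H.one]
  have e2 : dist o (a ^ i • o) = i * l := H.natO h4 i
  have e3 : dist o (a ^ (i + 1) • o) = (i + 1) * l := by
    rw [H.natO h4]; push_cast; ring
  have t1 := dist_triangle o z (a ^ i • o)
  have t2 := dist_triangle o z (a ^ (i + 1) • o)
  rw [dist_comm o z] at t1 t2
  have f1 := h4 z (a ^ (i + 1) • o) (a ^ i • o) o
  have f2 := h4 z (a ^ i • o) (a ^ (i + 1) • o) o
  rw [dist_comm (a ^ i • o) o] at f1
  rw [dist_comm (a ^ (i + 1) • o) o] at f2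
  rw [dist_comm (a ^ (i + 1) • o) o] at f1
  rw [dist_comm (a ^ i • o) o] at f2
  rw [dist_comm (a ^ i • o) (a ^ (i + 1) • o)] at f2
  rw [e1, e2, e3] at f1 f2
  have g1 : dist z (a ^ (i + 1) • o) + i * l ≤ dist z (a ^ i • o) + (i + 1) * l := by
    rcases le_max_iff.mp f1 with h | h
    · linarith
    · exfalso; linarith
  have g2 : dist z (a ^ i • o) + (i + 1) * l ≤ dist z (a ^ (i + 1) • o) + i * l := by
    rcases le_max_iff.mp f2 with h | h
    · linarith
    · exfalso; linarith
  linarith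

/-- Elements outside `⟨a⟩` move the positive end of the axis to the negative one. -/
theorem Axis.swap (h4 : FourPt X) (H : Axis a o l) (hC : ∀ g : G, ∃ k : ℤ, IsConj g (a ^ k))
    (g : G) (hg : g ∉ Subgroup.zpowers a) (M : ℕ) :
    ∃ i₀ : ℕ, ∀ i : ℕ, i₀ ≤ i →
      dist o (a ^ (-(M : ℤ)) • o) + dist (a ^ (-(M : ℤ)) • o) (g • a ^ i • o) ≤
        dist o (g • a ^ i • o) := by
  have hl := H.pos
  obtain ⟨i₀, hi₀⟩ := H.eventually h4 (g⁻¹ • a ^ (-((M : ℤ) + 1)) • o)
  refine ⟨i₀ + 1, fun i hi => ?_⟩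
  obtain ⟨j, rfl⟩ : ∃ j, i = j + 1 := ⟨i - 1, by omega⟩
  have h1 := hi₀ j (by omega)
  rw [dist_smul_inv g⁻¹, dist_smul_inv g⁻¹, inv_inv] at h1
  -- abbreviations
  set p : X := a ^ (-((M : ℤ) + 1)) • o with hp
  set q : X := a ^ (-(M : ℤ)) • o with hq
  set Q : X := g • a ^ (j + 1) • o with hQ
  have hpq : dist q p = l := by
    rw [hp, hq, H.int2 h4]
    push_cast
    rw [show -((M : ℝ) + 1) - -M = -1 by ring]
    simp
  have hqo : dist q o = M * l := by
    rw [dist_comm, hq, H.int h4]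
    simp
  have hpo : dist p o = (M + 1) * l := by
    rw [dist_comm, hp, H.int h4]
    push_cast
    rw [abs_neg, abs_of_nonneg (by positivity)]
  have hne : dist p Q ≠ dist q Q + l := by
    intro hcon
    apply hg
    set N : ℤ := (M : ℤ) + 1 + (j + 1) with hN
    have hw : a ^ N * g ∈ Subgroup.zpowers a := by
      apply H.local h4 hC (a ^ N * g) (a ^ (j + 1) • o)
      · rw [← mul_smul, ← pow_succ', dist_pow_add, pow_one, H.one]
      · rw [← zpow_natCast, ← mul_smul, ← mul_smul, ← zpow_neg_one, ← zpow_add,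
          ← zpow_one_add, H.int2 h4]
        push_cast
        rw [show (1 : ℝ) + (j + 1) - (-1 + (j + 1)) = 2 by ring]
        simp
      · have e1 : dist (a ^ (j + 1) • o) ((a ^ N * g) • a ^ (j + 1) • o) = dist p Q := by
          rw [mul_smul, ← dist_smul (a ^ (-N))]
          rw [← mul_smul (a ^ (-N)) (a ^ N), ← zpow_add, neg_add_cancel, zpow_zero, one_smul,
            ← mul_smul (a ^ (-N)), ← zpow_natCast a (j + 1), ← zpow_add, zpow_natCast a (j + 1)]
          congr 3
          rw [hN]; push_cast; ring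
        have e2 : dist (a • a ^ (j + 1) • o) ((a ^ N * g) • a ^ (j + 1) • o) = dist q Q := by
          rw [mul_smul, ← dist_smul (a ^ (-N))]
          rw [← mul_smul (a ^ (-N)) (a ^ N), ← zpow_add, neg_add_cancel, zpow_zero, one_smul,
            ← mul_smul a, ← pow_succ', ← mul_smul (a ^ (-N)), ← zpow_natCast a (j + 1 + 1),
            ← zpow_add]
          congr 3
          rw [hN]; push_cast; ring
        rw [e1, e2]; exact hcon
      · have e1 : dist (a ^ (j + 1) • o) ((a ^ N * g) • a ^ (j + 1) • o) = dist p Q := by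
          rw [mul_smul, ← dist_smul (a ^ (-N))]
          rw [← mul_smul (a ^ (-N)) (a ^ N), ← zpow_add, neg_add_cancel, zpow_zero, one_smul,
            ← mul_smul (a ^ (-N)), ← zpow_natCast a (j + 1), ← zpow_add, zpow_natCast a (j + 1)]
          congr 3
          rw [hN]; push_cast; ring
        have e3 : dist (a ^ (j + 1) • o) ((a ^ N * g) • a⁻¹ • a ^ (j + 1) • o) =
            dist p (g • a ^ j • o) := by
          have e4 : a⁻¹ • a ^ (j + 1) • o = a ^ j • o := by
            rw [pow_succ', mul_smul, inv_smul_smul]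
          rw [e4, mul_smul, ← dist_smul (a ^ (-N))]
          rw [← mul_smul (a ^ (-N)) (a ^ N), ← zpow_add, neg_add_cancel, zpow_zero, one_smul,
            ← mul_smul (a ^ (-N)), ← zpow_natCast a (j + 1), ← zpow_add]
          congr 3
          rw [hN]; push_cast; ring
        rw [e1, e3]; exact h1
    have hmem : a ^ (-N) * (a ^ N * g) ∈ Subgroup.zpowers a :=
      Subgroup.mul_mem _ (Subgroup.zpow_mem _ (Subgroup.mem_zpowers a) _) hw
    rwa [← mul_assoc, ← zpow_add, neg_add_cancel, zpow_zero, one_mul] at hmem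
  have hlt : dist p Q < dist q Q + l := by
    apply lt_of_le_of_ne _ hne
    have := dist_triangle p q Q
    rw [dist_comm p q, hpq] at this
    linarith
  have c1 : 0 < gp q Q p := by
    unfold gp
    rw [hpq, dist_comm Q p]
    linarith
  have c2 : gp q p o ≤ 0 := by
    unfold gp
    rw [hpq, hqo, hpo]
    linarith
  have c3 := gp_chain h4 c1 c2
  unfold gp at c3
  rw [dist_comm Q o] at c3
  rw [dist_comm o q]
  linarith

/-- A (C)-group with a hyperbolic generator of classes is cyclic. -/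
theorem Axis.all (h4 : FourPt X) (H : Axis a o l) (hC : ∀ g : G, ∃ k : ℤ, IsConj g (a ^ k))
    (g : G) : g ∈ Subgroup.zpowers a := by
  by_contra hg
  have hl := H.pos
  obtain ⟨k, hk⟩ := hC g
  obtain ⟨c, hc⟩ := isConj_iff.mp hk
  set x : G := c⁻¹ with hx
  have hgx : g = x * a ^ k * x⁻¹ := by rw [← hc, hx]; group
  have hxi : x⁻¹ ∉ Subgroup.zpowers a := by
    intro hmem
    apply hg
    have hmem' := Subgroup.inv_mem _ hmem
    rw [inv_inv] at hmem'
    rw [hgx]
    exact Subgroup.mul_mem _ (Subgroup.mul_mem _ hmem'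
      (Subgroup.zpow_mem _ (Subgroup.mem_zpowers a) _)) hmem
  obtain ⟨M, hM⟩ := exists_nat_gt ((2 * dist (x • o) o + |(k : ℝ)| * l + dist o (g • o)) / l)
  rw [div_lt_iff₀ hl] at hM
  obtain ⟨i₁, hi₁⟩ := H.swap h4 hC x⁻¹ hxi M
  obtain ⟨i₂, hi₂⟩ := H.swap h4 hC g hg 1
  set i : ℕ := max i₁ i₂ with hi
  have A := hi₁ i (le_max_left _ _)
  have B := hi₂ i (le_max_right _ _)
  set q : X := a ^ (-(M : ℤ)) • o with hq
  set p : X := a ^ (-((1 : ℕ) : ℤ)) • o with hp
  set R : X := a ^ i • o with hR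
  have hqo : dist o q = M * l := by
    rw [hq, H.int h4]
    simp
  have hpo : dist o p = l := by
    rw [hp, H.int h4]
    simp
  have hpR : dist p R = (i + 1) * l := by
    rw [hp, hR, ← zpow_natCast a i, H.int2 h4]
    push_cast
    rw [show (i : ℝ) - -1 = i + 1 by ring, abs_of_nonneg (by positivity)]
  have hRo : dist o R = i * l := H.natO h4 i
  rw [hqo] at A
  rw [hpo] at B
  -- `o` lies between `g R` and `R`
  have c1 : 0 < gp o (g • R) p := by
    unfold gp
    rw [hpo, dist_comm (g • R) p]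
    linarith
  have c2 : gp o p R ≤ 0 := by
    unfold gp
    rw [hpo, hRo, hpR]
    linarith
  have c3 := gp_chain h4 c1 c2
  unfold gp at c3
  rw [hRo] at c3
  -- the upper bound
  have t1 : dist (g • R) R ≤ dist (g • R) (x • q) + dist (x • q) R := dist_triangle _ _ _
  have t2 : dist (x • q) R = dist q (x⁻¹ • R) := dist_smul_inv x q R
  have t3 : dist (x • o) R = dist o (x⁻¹ • R) := dist_smul_inv x o R
  have t4 : dist (x • o) R ≤ dist (x • o) o + dist o R := dist_triangle _ _ _
  have t5 : dist (g • R) (x • q) ≤ dist q (x⁻¹ • R) + |(k : ℝ)| * l := by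
    have e1 : dist (g • R) (x • q) = dist (x⁻¹ • R) (a ^ (-k) • q) := by
      rw [hgx, mul_smul, mul_smul, dist_smul, dist_smul_inv, zpow_neg]
    have e2 : dist q (a ^ (-k) • q) = |(k : ℝ)| * l := by
      rw [hq, ← mul_smul, ← zpow_add, H.int2 h4]
      push_cast
      rw [show -(k : ℝ) + -M - -M = -k by ring, abs_neg]
    have e3 := dist_triangle (x⁻¹ • R) q (a ^ (-k) • q)
    rw [e1, dist_comm q (x⁻¹ • R)]
    linarith
  have t6 : (i : ℝ) * l ≤ dist o (g • o) + dist o (g • R) := by
    have e1 : dist (g • o) (g • R) = i * l := by rw [dist_smul, hRo]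
    have e2 := dist_triangle (g • o) o (g • R)
    rw [e1, dist_comm (g • o) o] at e2
    exact e2
  rw [hRo] at t4
  have t7 : (0 : ℝ) ≤ M * l := by positivity
  linarith

end

/-- A group with property (C) some element of which has increasing second displacement
at some point is generated by `a`. -/
theorem cyclic_of_hyp (h4 : FourPt X) (hm : HasMid X) (a : G)
    (hC : ∀ g : G, ∃ k : ℤ, IsConj g (a ^ k)) (g : G) (x : X)
    (h : dist x (g • x) < dist x (g ^ 2 • x)) : IsCyclic G := by
  -- `a` is hyperbolic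
  have ha : ∃ y : X, dist y (a • y) < dist y (a ^ 2 • y) := by
    by_contra hcon
    push Not at hcon
    obtain ⟨k, hk⟩ := hC g
    obtain ⟨c, hc⟩ := isConj_iff.mp hk
    have hg : g = c⁻¹ * a ^ k * c⁻¹⁻¹ := by rw [← hc]; group
    have hb : ∀ n : ℕ, dist x (g ^ n • x) ≤ dist (c • x) (a • c • x) := by
      intro n
      have e1 : g ^ n = c⁻¹ * (a ^ k) ^ n * c⁻¹⁻¹ := by
        conv_lhs => rw [hg]
        exact conj_pow' _ _ _
      rw [e1, dist_conj, inv_inv, ← zpow_natCast, ← zpow_mul]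
      have h1 := fun m : ℕ => seq_ell h4 a (c • x) (hcon (c • x)) m
      rcases Int.natAbs_eq (k * n) with h | h
      · rw [h, zpow_natCast]; exact h1 _
      · rw [h, zpow_neg, zpow_natCast, dist_inv_self]; exact h1 _
    have h2 := seq_hyp h4 g x h
    have h3 : dist x (g ^ 2 • x) - dist x (g • x) ≤ 0 := by
      apply slope_le (C := dist (c • x) (a • c • x))
      intro n
      have h4' := h2 n
      have h5 := hb (n + 1)
      have h6 : (0 : ℝ) ≤ dist x (g • x) := dist_nonneg
      linarith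
    linarith
  obtain ⟨y, hy⟩ := ha
  obtain ⟨o, l, H⟩ := exists_axis h4 hm a y hy
  exact ⟨a, fun g => H.all h4 hC g⟩

end Pool.Agent.H67.CConj
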