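import Pool.Agent.H67.CConj.FP

/-!
# Groups covered by the conjugates of a cyclic subgroup: reduction to simple groups
-/

set_option autoImplicit false
set_option maxHeartbeats 400000

namespace Pool.Agent.H67.CConj

open Group

/-- Every element is conjugate to a power of `a`. -/
def PropC {G : Type*} [Group G] (a : G) : Prop := ∀ g : G, ∃ k : ℤ, IsConj g (a ^ k)

section

variable {G : Type*} [Group G] {a : G}

theorem PropC.map {H : Type*} [Group H] (hC : PropC a) (f : G →* H)
    (hf : Function.Surjective f) : PropC (f a) := by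
  intro h
  obtain ⟨g, rfl⟩ := hf h
  obtain ⟨k, hk⟩ := hC g
  refine ⟨k, ?_⟩
  rw [← map_zpow]
  exact f.map_isConj hk

/-- A normal subgroup containing a conjugate contains the element. -/
theorem mem_of_conj {N : Subgroup G} [N.Normal] {g h : G} (hgh : IsConj g h) (hg : g ∈ N) :
    h ∈ N := by
  obtain ⟨c, hc⟩ := isConj_iff.mp hgh
  rw [← hc]
  exact ‹N.Normal›.conj_mem g hg c

/-- Every normal subgroup is the normal closure of its intersection with `⟨a⟩`. -/
theorem PropC.normal_fng (hC : PropC a) (N : Subgroup G) [N.Normal] :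
    N.IsFinitelyNormallyGenerated := by
  have hcyc : IsCyclic (N.subgroupOf (Subgroup.zpowers a)) := inferInstance
  obtain ⟨⟨⟨c, hc1⟩, hc2⟩, hgen⟩ := hcyc.exists_generator
  refine ⟨{c}, Set.finite_singleton c, ?_⟩
  have hcN : c ∈ N := Subgroup.mem_subgroupOf.mp hc2
  apply le_antisymm
  · apply Subgroup.normalClosure_le_normal
    rintro _ rfl
    exact hcN
  · intro g hg
    obtain ⟨k, hk⟩ := hC g
    have h1 : a ^ k ∈ N := mem_of_conj hk hg
    have h2 : a ^ k ∈ Subgroup.zpowers a := ⟨k, rfl⟩
    obtain ⟨j, hj⟩ := hgen ⟨⟨a ^ k, h2⟩, Subgroup.mem_subgroupOf.mpr h1⟩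
    have h3 : c ^ j = a ^ k := by
      have := congrArg (fun x => ((x : Subgroup.zpowers a) : G)) (congrArg Subtype.val hj)
      simpa using this
    have h0 : c ∈ Subgroup.normalClosure ({c} : Set G) :=
      Subgroup.subset_normalClosure (Set.mem_singleton c)
    have h4 : a ^ k ∈ Subgroup.normalClosure ({c} : Set G) := by
      rw [← h3]
      exact Subgroup.zpow_mem _ h0 j
    exact mem_of_conj hk.symm h4

theorem PropC.cyclic_of_comm (hC : PropC a) (hcomm : ∀ x y : G, x * y = y * x) :
    IsCyclic G := by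
  refine ⟨a, fun g => ?_⟩
  obtain ⟨k, hk⟩ := hC g
  obtain ⟨c, hc⟩ := isConj_iff.mp hk
  refine ⟨k, ?_⟩
  change a ^ k = g
  rw [← hc, hcomm c g, mul_inv_cancel_right]

theorem PropC.cyclic_of_commutator (hC : PropC a) (h : commutator G = ⊥) : IsCyclic G := by
  apply hC.cyclic_of_comm
  intro x y
  have h1 : x * y * x⁻¹ * y⁻¹ ∈ commutator G := by
    rw [commutator_def]
    exact Subgroup.commutator_mem_commutator (Subgroup.mem_top x) (Subgroup.mem_top y)
  rw [h, Subgroup.mem_bot] at h1
  calc x * y = (x * y * x⁻¹ * y⁻¹) * (y * x) := by group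
    _ = y * x := by rw [h1, one_mul]

/-- Non-cyclic group with property (C): the commutator subgroup has finite index. -/
theorem PropC.orderOf_ne (hC : PropC a) (hnc : ¬ IsCyclic G) :
    orderOf (Abelianization.of a) ≠ 0 := by
  intro h0
  apply hnc
  apply hC.cyclic_of_commutator
  rw [eq_bot_iff]
  intro g hg
  obtain ⟨k, hk⟩ := hC g
  have h1 : a ^ k ∈ commutator G := mem_of_conj hk hg
  have h2 : (Abelianization.of a) ^ k = 1 := by
    rw [← map_zpow, ← MonoidHom.mem_ker, Abelianization.ker_of]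
    exact h1
  have h3 : (orderOf (Abelianization.of a) : ℤ) ∣ k := orderOf_dvd_iff_zpow_eq_one.mpr h2
  rw [h0] at h3
  have h4 : k = 0 := by simpa using h3
  rw [h4, zpow_zero] at hk
  exact Subgroup.mem_bot.mpr (isConj_one_left.mp hk)

theorem PropC.abel_gen (hC : PropC a) (x : G) :
    ∃ i : ℤ, a ^ (-i) * x ∈ commutator G := by
  obtain ⟨k, hk⟩ := hC x
  refine ⟨k, ?_⟩
  rw [← Abelianization.ker_of, MonoidHom.mem_ker, map_mul, map_zpow]
  have h1 : Abelianization.of x = Abelianization.of (a ^ k) :=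
    isConj_iff_eq.mp (Abelianization.of.map_isConj hk)
  rw [h1, map_zpow, ← zpow_add, neg_add_cancel, zpow_zero]

theorem PropC.finiteIndex (hC : PropC a) (hnc : ¬ IsCyclic G) :
    (commutator G).FiniteIndex := by
  have h0 := hC.orderOf_ne hnc
  have hfin : Finite (Abelianization G) := by
    have h1 : (Subgroup.zpowers (Abelianization.of a) : Set (Abelianization G)) = Set.univ := by
      rw [Set.eq_univ_iff_forall]
      intro y
      obtain ⟨x, rfl⟩ := QuotientGroup.mk_surjective y
      obtain ⟨i, hi⟩ := hC.abel_gen x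
      rw [← Abelianization.ker_of, MonoidHom.mem_ker, map_mul, map_zpow, zpow_neg,
        inv_mul_eq_one] at hi
      exact ⟨i, hi⟩
    have h2 : (Subgroup.zpowers (Abelianization.of a) : Set (Abelianization G)).Finite := by
      rw [finite_zpowers]
      exact isOfFinOrder_iff_pow_eq_one.mpr
        ⟨_, Nat.pos_of_ne_zero h0, pow_orderOf_eq_one _⟩
    rw [h1] at h2
    exact Set.finite_univ_iff.mp h2
  constructor
  have : (commutator G).index = Nat.card (Abelianization G) := rfl
  rw [this]
  exact Nat.card_pos.ne'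

/-- The commutator subgroup has property (C). -/
theorem PropC.commutator (hC : PropC a) :
    ∃ b : commutator G, (b : G) ∈ Subgroup.zpowers a ∧ PropC b := by
  set m := orderOf (Abelianization.of a) with hm
  have hb : a ^ m ∈ _root_.commutator G := by
    rw [← Abelianization.ker_of, MonoidHom.mem_ker, map_pow, hm, pow_orderOf_eq_one]
  refine ⟨⟨a ^ m, hb⟩, ⟨(m : ℤ), by simp⟩, ?_⟩
  rintro ⟨g, hg⟩
  obtain ⟨k, hk⟩ := hC g
  have h1 : a ^ k ∈ _root_.commutator G := mem_of_conj hk hg
  have h2 : (Abelianization.of a) ^ k = 1 := by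
    rw [← map_zpow, ← MonoidHom.mem_ker, Abelianization.ker_of]
    exact h1
  have h3 : (m : ℤ) ∣ k := orderOf_dvd_iff_zpow_eq_one.mpr h2
  obtain ⟨j, rfl⟩ := h3
  obtain ⟨c, hc⟩ := isConj_iff.mp hk
  obtain ⟨i, hi⟩ := hC.abel_gen c
  refine ⟨j, isConj_iff.mpr ⟨⟨a ^ (-i) * c, hi⟩, ?_⟩⟩
  apply Subtype.ext
  simp only [Subgroup.coe_mul, InvMemClass.coe_inv, SubgroupClass.coe_zpow]
  have h4 : a ^ (-i) * c * g * (a ^ (-i) * c)⁻¹ = a ^ (-i) * (c * g * c⁻¹) * a ^ i := by
    group
  rw [h4, hc, ← zpow_natCast, ← zpow_mul, ← zpow_add, ← zpow_add]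
  congr 1
  ring

/-- The commutator subgroup is perfect. -/
theorem PropC.perfect (hC : PropC a) : _root_.commutator (_root_.commutator G) = ⊤ := by
  obtain ⟨b, hba, hb⟩ := hC.commutator
  set L : Subgroup G := (_root_.commutator (_root_.commutator G)).map
    (_root_.commutator G).subtype with hL
  have hLn : L.Normal := by
    rw [hL]
    exact ConjAct.normal_of_characteristic_of_normal
  -- `G/L` is generated by the image of `a`
  have hgen : ∀ x : G, ∃ i : ℤ, a ^ (-i) * x ∈ L := by
    intro x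
    obtain ⟨i, hi⟩ := hC.abel_gen x
    obtain ⟨j, hj⟩ := hb.abel_gen ⟨a ^ (-i) * x, hi⟩
    obtain ⟨m, hm⟩ := hba
    refine ⟨i + m * j, ?_⟩
    have h1 : (b : G) ^ (-j) * (a ^ (-i) * x) ∈ L :=
      ⟨_, hj, by simp⟩
    have h2 : a ^ (-(i + m * j)) * x = (b : G) ^ (-j) * (a ^ (-i) * x) := by
      rw [← hm]
      change _ = (a ^ m) ^ (-j) * (a ^ (-i) * x)
      rw [← zpow_mul, ← mul_assoc, ← zpow_add]
      congr 2
      ring
    rw [h2]; exact h1
  have hcomm : ∀ x y : G ⧸ L, x * y = y * x := by
    have hz : ∀ x : G ⧸ L, ∃ i : ℤ, x = (QuotientGroup.mk a : G ⧸ L) ^ i := by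
      intro x
      obtain ⟨x, rfl⟩ := QuotientGroup.mk_surjective x
      obtain ⟨i, hi⟩ := hgen x
      refine ⟨i, ?_⟩
      rw [← QuotientGroup.mk_zpow, eq_comm, QuotientGroup.eq, ← zpow_neg]
      exact hi
    intro x y
    obtain ⟨i, rfl⟩ := hz x
    obtain ⟨j, rfl⟩ := hz y
    rw [← zpow_add, ← zpow_add, add_comm]
  have hle : _root_.commutator G ≤ L := by
    rw [commutator_def, Subgroup.commutator_le]
    intro x _ y _
    rw [← QuotientGroup.eq_one_iff]
    rw [commutatorElement_def, QuotientGroup.mk_mul, QuotientGroup.mk_mul, QuotientGroup.mk_mul,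
      QuotientGroup.mk_inv, QuotientGroup.mk_inv,
      hcomm (QuotientGroup.mk x : G ⧸ L) (QuotientGroup.mk y)]
    group
  rw [eq_top_iff]
  rintro ⟨x, hx⟩ -
  obtain ⟨y, hy, hyx⟩ := hle hx
  have : y = ⟨x, hx⟩ := Subtype.ext hyx
  rw [← this]; exact hy

/-- A nontrivial group with property (C) has a maximal proper normal subgroup. -/
theorem PropC.exists_maximal [Nontrivial G] (hC : PropC a) :
    ∃ M : Subgroup G, M.Normal ∧ M ≠ ⊤ ∧
      ∀ N : Subgroup G, N.Normal → M ≤ N → N ≠ ⊤ → N = M := by
  classical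
  by_cases hP : ∃ d : ℕ, 0 < d ∧ Subgroup.normalClosure ({a ^ d} : Set G) ≠ ⊤
  · set d := Nat.find hP with hd
    have hdP := Nat.find_spec hP
    have hmin := fun (e : ℕ) (he : 0 < e ∧ Subgroup.normalClosure ({a ^ e} : Set G) ≠ ⊤) =>
      Nat.find_min' hP he
    have hd0 : a ^ d ∈ Subgroup.normalClosure ({a ^ d} : Set G) :=
      Subgroup.subset_normalClosure (Set.mem_singleton _)
    refine ⟨Subgroup.normalClosure {a ^ d}, inferInstance, hdP.2, ?_⟩
    intro N hN hMN hNtop
    refine le_antisymm ?_ hMN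
    intro g hg
    obtain ⟨k, hk⟩ := hC g
    have h1 : a ^ k ∈ N := mem_of_conj hk hg
    have h2 : a ^ d ∈ N := hMN hd0
    -- Bezout
    set e : ℕ := Int.gcd k d with he
    have h3 : a ^ e ∈ N := by
      rw [← zpow_natCast, he, Int.gcd_eq_gcd_ab, zpow_add, zpow_mul, zpow_mul, zpow_natCast]
      exact Subgroup.mul_mem _ (Subgroup.zpow_mem _ h1 _) (Subgroup.zpow_mem _ h2 _)
    have h4 : 0 < e := by
      rw [he]
      exact Int.gcd_pos_of_ne_zero_right _ (by exact_mod_cast hdP.1.ne')
    have h5 : Subgroup.normalClosure ({a ^ e} : Set G) ≤ N := by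
      apply Subgroup.normalClosure_le_normal
      rintro _ rfl
      exact h3
    have h6 : d ≤ e := hmin e ⟨h4, fun htop => hNtop (top_le_iff.mp (htop ▸ h5))⟩
    have h7 : (e : ℤ) ∣ d := Int.gcd_dvd_right _ _
    have h8 : e ≤ d := Nat.le_of_dvd hdP.1 (by exact_mod_cast h7)
    have h9 : (d : ℤ) ∣ k := by
      have : (e : ℤ) ∣ k := Int.gcd_dvd_left _ _
      rwa [le_antisymm h8 h6] at this
    obtain ⟨j, rfl⟩ := h9
    have h10 : a ^ ((d : ℤ) * j) ∈ Subgroup.normalClosure ({a ^ d} : Set G) := by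
      rw [zpow_mul, zpow_natCast]
      exact Subgroup.zpow_mem _ hd0 _
    exact mem_of_conj hk.symm h10
  · push Not at hP
    refine ⟨⊥, inferInstance, bot_ne_top, ?_⟩
    intro N hN _ hNtop
    by_contra hne
    apply hNtop
    obtain ⟨g, hg, hg1⟩ : ∃ g, g ∈ N ∧ g ≠ 1 := by
      by_contra hcon
      push Not at hcon
      exact hne ((Subgroup.eq_bot_iff_forall N).mpr hcon)
    obtain ⟨k, hk⟩ := hC g
    have h1 : a ^ k ∈ N := mem_of_conj hk hg
    have hk0 : k ≠ 0 := by
      rintro rfl
      rw [zpow_zero] at hk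
      exact hg1 (isConj_one_left.mp hk)
    have h2 : a ^ k.natAbs ∈ N := by
      rcases Int.natAbs_eq k with h | h
      · rw [h, zpow_natCast] at h1; exact h1
      · rw [h, zpow_neg, zpow_natCast] at h1
        exact (Subgroup.inv_mem_iff N).mp h1
    have h3 := hP k.natAbs (Int.natAbs_pos.mpr hk0)
    rw [← top_le_iff, ← h3]
    apply Subgroup.normalClosure_le_normal
    rintro _ rfl
    exact h2

end

/-- The case of perfect groups. -/
theorem PropC.exists_simple_of_perfect {P : Type*} [Group P] [IsFinitelyPresented P]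
    [Nontrivial P] {b : P} (hb : PropC b) (hperf : _root_.commutator P = ⊤) :
    ∃ (M : Subgroup P) (_ : M.Normal),
      IsFinitelyPresented (P ⧸ M) ∧ IsSimpleGroup (P ⧸ M) ∧
      ¬ IsCyclic (P ⧸ M) ∧ ∃ b : P ⧸ M, PropC b := by
  obtain ⟨M, hM, hMtop, hmax⟩ := hb.exists_maximal
  have hsurj : Function.Surjective (QuotientGroup.mk' M) := QuotientGroup.mk'_surjective M
  have hntQ : Nontrivial (P ⧸ M) := by
    rw [QuotientGroup.nontrivial_iff]
    exact hMtop
  have hperfQ : _root_.commutator (P ⧸ M) = ⊤ := by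
    rw [commutator_def, ← Subgroup.map_top_of_surjective _ hsurj, ← Subgroup.map_commutator,
      ← commutator_def, hperf]
  refine ⟨M, hM, IsFinitelyPresented.quotient M (hb.normal_fng M), ?_, ?_, ?_⟩
  · refine { hntQ with eq_bot_or_eq_top_of_normal := ?_ }
    intro N' hN'
    by_cases htop : N' = ⊤
    · exact Or.inr htop
    · left
      have h1 := hmax (N'.comap (QuotientGroup.mk' M)) (hN'.comap _)
        (by
          intro x hx
          rw [Subgroup.mem_comap]
          have : QuotientGroup.mk' M x = 1 := (QuotientGroup.eq_one_iff x).mpr hx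
          rw [this]; exact N'.one_mem)
        (by
          intro h
          apply htop
          rw [← Subgroup.map_comap_eq_self_of_surjective hsurj N', h,
            Subgroup.map_top_of_surjective _ hsurj])
      rw [← Subgroup.map_comap_eq_self_of_surjective hsurj N', h1]
      exact (Subgroup.map_eq_bot_iff M).mpr (le_of_eq (QuotientGroup.ker_mk' M).symm)
  · intro hcyc
    obtain ⟨z, hz⟩ := hcyc.exists_generator
    have : _root_.commutator (P ⧸ M) = ⊥ := by
      rw [commutator_def, Subgroup.commutator_eq_bot_iff_le_centralizer]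
      intro x _
      rw [Subgroup.mem_centralizer_iff]
      intro y _
      obtain ⟨i, rfl⟩ := hz x
      obtain ⟨j, rfl⟩ := hz y
      change z ^ j * z ^ i = z ^ i * z ^ j
      rw [← zpow_add, ← zpow_add, add_comm]
    rw [this] at hperfQ
    exact bot_ne_top hperfQ
  · exact ⟨_, hb.map (QuotientGroup.mk' M) hsurj⟩

/-- A finitely presented non-cyclic group with property (C) yields a finitely presented simple
non-cyclic group with property (C), as a quotient of its commutator subgroup. -/
theorem PropC.exists_simple {G : Type*} [Group G] [IsFinitelyPresented G] {a : G}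
    (hC : PropC a) (hnc : ¬ IsCyclic G) :
    ∃ (M : Subgroup (_root_.commutator G)) (_ : M.Normal),
      IsFinitelyPresented (_root_.commutator G ⧸ M) ∧ IsSimpleGroup (_root_.commutator G ⧸ M) ∧
      ¬ IsCyclic (_root_.commutator G ⧸ M) ∧ ∃ b : _root_.commutator G ⧸ M, PropC b := by
  have hfi : (_root_.commutator G).FiniteIndex := hC.finiteIndex hnc
  have hfp : IsFinitelyPresented (_root_.commutator G) := isFinitelyPresented_of_finiteIndex _
  obtain ⟨b, -, hb⟩ := hC.commutator
  have hnt : Nontrivial (_root_.commutator G) := by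
    rw [Subgroup.nontrivial_iff_ne_bot]
    intro h
    exact hnc (hC.cyclic_of_commutator h)
  exact hb.exists_simple_of_perfect hC.perfect

/-- Transport to a presented group over finitely many generators. -/
theorem exists_presented {G : Type*} [Group G] [hfp : IsFinitelyPresented G]
    (hs : IsSimpleGroup G) (hnc : ¬ IsCyclic G) {a : G} (hC : PropC a) :
    ∃ (n : ℕ) (rels : Finset (FreeGroup (Fin n))),
      IsSimpleGroup (PresentedGroup (rels : Set (FreeGroup (Fin n)))) ∧
      ¬ IsCyclic (PresentedGroup (rels : Set (FreeGroup (Fin n)))) ∧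
      ∃ b : PresentedGroup (rels : Set (FreeGroup (Fin n))), PropC b := by
  obtain ⟨n, s, hsfin, ⟨e⟩⟩ := hfp.exists_mulEquiv_presentedGroup
  refine ⟨n, hsfin.toFinset, ?_⟩
  rw [Set.Finite.coe_toFinset]
  refine ⟨?_, ?_, e a, hC.map e.toMonoidHom e.surjective⟩
  · have : Nontrivial (PresentedGroup s) := e.symm.toEquiv.nontrivial
    exact IsSimpleGroup.isSimpleGroup_of_surjective e.toMonoidHom e.surjective
  · intro hcyc
    exact hnc (isCyclic_of_surjective e.symm e.symm.surjective)

end Pool.Agent.H67.CConj
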