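import Mathlib

/-!
# Isometric actions on 0-hyperbolic spaces with midpoints, and groups covered by the
conjugates of one cyclic subgroup
-/

set_option autoImplicit false

namespace Pool.Agent.H67.CConj

/-- The four point condition (0-hyperbolicity). -/
def FourPt (X : Type*) [MetricSpace X] : Prop :=
  ∀ x y z w : X, dist x y + dist z w ≤ max (dist x z + dist y w) (dist x w + dist y z)

/-- Every two points have a midpoint. -/
def HasMid (X : Type*) [MetricSpace X] : Prop :=
  ∀ x y : X, ∃ m : X, dist x m = dist x y / 2 ∧ dist m y = dist x y / 2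

variable {X : Type*} [MetricSpace X]

/-- Twice the Gromov product. -/
def gp (x y z : X) : ℝ := dist x y + dist x z - dist y z

theorem gp_comm (x y z : X) : gp x y z = gp x z y := by
  unfold gp; rw [dist_comm y z]; ring

theorem gp_nonneg (x y z : X) : 0 ≤ gp x y z := by
  unfold gp
  have := dist_triangle_left y z x
  linarith

theorem gp_min (h4 : FourPt X) (x y z w : X) : min (gp x y w) (gp x w z) ≤ gp x y z := by
  have h := h4 x w y z
  unfold gp
  rw [dist_comm w z] at h
  rcases le_total (dist x y + dist z w) (dist x z + dist w y) with h1 | h1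
  · rw [max_eq_right h1] at h
    apply min_le_of_left_le
    rw [dist_comm y w]
    linarith
  · rw [max_eq_left h1] at h
    apply min_le_of_right_le
    rw [dist_comm w z]
    linarith

/-- If `y` and `w` are close as seen from `x` and `w, z` are not, then `y, z` are not. -/
theorem gp_chain (h4 : FourPt X) {x y z w : X} {κ : ℝ} (h1 : κ < gp x y w) (h2 : gp x w z ≤ κ) :
    gp x y z ≤ κ := by
  by_contra hlt
  push Not at hlt
  have h := gp_min h4 x w z y
  rw [gp_comm x w y] at h
  have := lt_min h1 hlt
  linarith

/-- Distance from a midpoint. -/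
theorem dist_mid (h4 : FourPt X) {x z p : X} (h1 : dist x p = dist x z / 2)
    (h2 : dist p z = dist x z / 2) (y : X) :
    dist p y ≤ max (dist x y) (dist z y) - dist x z / 2 := by
  have h := h4 p y x z
  rw [dist_comm p x, h1, h2, dist_comm y z, dist_comm y x] at h
  rcases le_total (dist x y) (dist z y) with h3 | h3
  · rw [max_eq_right h3]
    rcases le_total (dist x z / 2 + dist z y) (dist x z / 2 + dist x y) with h5 | h5
    · rw [max_eq_right h5] at h; linarith
    · rw [max_eq_left h5] at h; linarith
  · rw [max_eq_left h3]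
    rcases le_total (dist x z / 2 + dist z y) (dist x z / 2 + dist x y) with h5 | h5
    · rw [max_eq_right h5] at h; linarith
    · rw [max_eq_left h5] at h; linarith

variable {G : Type*} [Group G] [MulAction G X] [IsIsometricSMul G X]

theorem dist_smul_inv (g : G) (x y : X) : dist (g • x) y = dist x (g⁻¹ • y) := by
  rw [← dist_smul g⁻¹ (g • x) y, inv_smul_smul]

theorem dist_pow_add (g : G) (x : X) (m n : ℕ) :
    dist (g ^ m • x) (g ^ (m + n) • x) = dist x (g ^ n • x) := by
  rw [pow_add, mul_smul, dist_smul]

theorem seq_upper (h4 : FourPt X) (g : G) (x : X) (n : ℕ) :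
    dist x (g ^ (n + 2) • x) + dist x (g ^ n • x) ≤
      max (2 * dist x (g • x)) (2 * dist x (g ^ (n + 1) • x)) := by
  have h := h4 x (g ^ (n + 2) • x) (g • x) (g ^ (n + 1) • x)
  have e1 : dist (g • x) (g ^ (n + 1) • x) = dist x (g ^ n • x) := by
    have := dist_pow_add g x 1 n
    rwa [pow_one, add_comm 1 n] at this
  have e2 : dist (g ^ (n + 2) • x) (g ^ (n + 1) • x) = dist x (g • x) := by
    have := dist_pow_add g x (n + 1) 1
    rw [pow_one] at this
    rw [dist_comm, ← this]
  have e3 : dist (g ^ (n + 2) • x) (g • x) = dist x (g ^ (n + 1) • x) := by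
    have := dist_pow_add g x 1 (n + 1)
    rw [pow_one] at this
    rw [dist_comm, ← this]
    ring_nf
  rw [e1, e2, e3] at h
  have e4 : dist x (g • x) + dist x (g • x) = 2 * dist x (g • x) := by ring
  have e5 : dist x (g ^ (n + 1) • x) + dist x (g ^ (n + 1) • x) =
    2 * dist x (g ^ (n + 1) • x) := by ring
  rw [e4, e5] at h
  exact h

theorem seq_lower (h4 : FourPt X) (g : G) (x : X) (n : ℕ) :
    2 * dist x (g ^ (n + 1) • x) ≤
      max (2 * dist x (g • x)) (dist x (g ^ (n + 2) • x) + dist x (g ^ n • x)) := by
  have h := h4 x (g ^ (n + 1) • x) (g • x) (g ^ (n + 2) • x)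
  have e1 : dist (g • x) (g ^ (n + 2) • x) = dist x (g ^ (n + 1) • x) := by
    have := dist_pow_add g x 1 (n + 1)
    rw [pow_one] at this
    rw [← this]
    ring_nf
  have e2 : dist (g ^ (n + 1) • x) (g ^ (n + 2) • x) = dist x (g • x) := by
    have := dist_pow_add g x (n + 1) 1
    rw [pow_one] at this
    exact this
  have e3 : dist (g ^ (n + 1) • x) (g • x) = dist x (g ^ n • x) := by
    have := dist_pow_add g x 1 n
    rw [pow_one] at this
    rw [dist_comm, ← this]
    ring_nf
  rw [e1, e2, e3] at h
  have e4 : dist x (g • x) + dist x (g • x) = 2 * dist x (g • x) := by ring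
  have e5 : dist x (g ^ (n + 1) • x) + dist x (g ^ (n + 1) • x) =
    2 * dist x (g ^ (n + 1) • x) := by ring
  rw [e4, e5] at h
  exact h

/-- Growth along a hyperbolic isometry. -/
theorem seq_hyp (h4 : FourPt X) (g : G) (x : X)
    (h : dist x (g • x) < dist x (g ^ 2 • x)) (n : ℕ) :
    dist x (g ^ (n + 1) • x) =
      dist x (g • x) + n * (dist x (g ^ 2 • x) - dist x (g • x)) := by
  set l : ℝ := dist x (g ^ 2 • x) - dist x (g • x) with hl
  have hl0 : 0 < l := by rw [hl]; linarith
  suffices H : dist x (g ^ (n + 1) • x) = dist x (g • x) + n * l ∧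
      dist x (g ^ (n + 2) • x) = dist x (g • x) + (n + 1) * l from H.1
  induction n with
  | zero =>
    constructor
    · simp
    · rw [hl]; push_cast; ring_nf
  | succ k ih =>
    obtain ⟨ih1, ih2⟩ := ih
    constructor
    · rw [show k + 1 + 1 = k + 2 by ring, ih2]; push_cast; ring
    · have hk : (0 : ℝ) ≤ k := Nat.cast_nonneg k
      have h1 := seq_upper h4 g x (k + 1)
      have h2 := seq_lower h4 g x (k + 1)
      rw [show k + 1 + 1 = k + 2 by ring] at h1 h2
      have h3 : dist x (g • x) < dist x (g ^ (k + 2) • x) := by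
        rw [ih2]; nlinarith
      rw [max_eq_right (by linarith)] at h1
      have h5 : dist x (g ^ (k + 1 + 2) • x) + dist x (g ^ (k + 1) • x) ≥
          2 * dist x (g ^ (k + 2) • x) := by
        by_contra hcon
        push Not at hcon
        have := max_lt (show 2 * dist x (g • x) < 2 * dist x (g ^ (k + 2) • x) by linarith) hcon
        linarith
      have h6 : dist x (g ^ (k + 1 + 2) • x) = 2 * dist x (g ^ (k + 2) • x) -
        dist x (g ^ (k + 1) • x) := by linarith
      rw [h6, ih1, ih2]; push_cast; ring

/-- Boundedness along an elliptic isometry. -/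
theorem seq_ell (h4 : FourPt X) (g : G) (x : X)
    (h : dist x (g ^ 2 • x) ≤ dist x (g • x)) (n : ℕ) :
    dist x (g ^ n • x) ≤ dist x (g • x) := by
  suffices H : dist x (g ^ n • x) ≤ dist x (g • x) ∧
      dist x (g ^ (n + 1) • x) ≤ dist x (g • x) from H.1
  induction n with
  | zero => simp
  | succ k ih =>
    obtain ⟨ih1, ih2⟩ := ih
    refine ⟨ih2, ?_⟩
    have h1 := h4 x (g ^ (k + 2) • x) (g • x) (g ^ 2 • x)
    have e1 : dist (g • x) (g ^ 2 • x) = dist x (g • x) := by
      have := dist_pow_add g x 1 1
      rwa [pow_one] at this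
    have e2 : dist (g ^ (k + 2) • x) (g ^ 2 • x) = dist x (g ^ k • x) := by
      have := dist_pow_add g x 2 k
      rw [dist_comm, ← this, add_comm 2 k]
    have e3 : dist (g ^ (k + 2) • x) (g • x) = dist x (g ^ (k + 1) • x) := by
      have := dist_pow_add g x 1 (k + 1)
      rw [pow_one] at this
      rw [dist_comm, ← this]
      ring_nf
    rw [e1, e2, e3] at h1
    have h2 : max (dist x (g • x) + dist x (g ^ k • x))
        (dist x (g ^ 2 • x) + dist x (g ^ (k + 1) • x)) ≤ 2 * dist x (g • x) :=
      max_le (by linarith) (by linarith)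
    rw [show k + 1 + 1 = k + 2 by ring]
    linarith

theorem dist_orbit_base (g : G) (x y : X) :
    dist x (g • x) ≤ dist y (g • y) + 2 * dist x y := by
  have h1 := dist_triangle x y (g • x)
  have h2 := dist_triangle y (g • y) (g • x)
  rw [dist_smul, dist_comm y x] at h2
  linarith

/-- A linear function bounded above by a constant on `ℕ` has nonpositive slope. -/
theorem slope_le {t C : ℝ} (h : ∀ n : ℕ, (n : ℝ) * t ≤ C) : t ≤ 0 := by
  by_contra ht
  push Not at ht
  obtain ⟨n, hn⟩ := exists_nat_gt (C / t)
  rw [div_lt_iff₀ ht] at hn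
  exact absurd (h n) (not_le.mpr hn)

/-- The increment `d(x,g²x) - d(x,gx)` of a hyperbolic isometry does not depend on `x`. -/
theorem hyp_base (h4 : FourPt X) (g : G) (x y : X)
    (h : dist x (g • x) < dist x (g ^ 2 • x)) :
    dist y (g ^ 2 • y) - dist y (g • y) = dist x (g ^ 2 • x) - dist x (g • x) := by
  have hx := seq_hyp h4 g x h
  set l : ℝ := dist x (g ^ 2 • x) - dist x (g • x) with hl
  have hl0 : 0 < l := by rw [hl]; linarith
  rcases le_or_gt (dist y (g ^ 2 • y)) (dist y (g • y)) with hy | hy
  · exfalso
    have hy' := seq_ell h4 g y hy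
    have : l ≤ 0 := by
      apply slope_le (C := dist y (g • y) + 2 * dist x y)
      intro n
      have h1 := dist_orbit_base (g ^ (n + 1)) x y
      have h2 := hy' (n + 1)
      rw [hx n] at h1
      have h3 : (0 : ℝ) ≤ dist x (g • x) := dist_nonneg
      linarith
    linarith
  · have hy' := seq_hyp h4 g y hy
    set l' : ℝ := dist y (g ^ 2 • y) - dist y (g • y) with hl'
    have A : l - l' ≤ 0 := by
      apply slope_le (C := dist y (g • y) + 2 * dist x y)
      intro n
      have h1 := dist_orbit_base (g ^ (n + 1)) x y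
      rw [hx n, hy' n] at h1
      have h3 : (0 : ℝ) ≤ dist x (g • x) := dist_nonneg
      linarith
    have B : l' - l ≤ 0 := by
      apply slope_le (C := dist x (g • x) + 2 * dist y x)
      intro n
      have h1 := dist_orbit_base (g ^ (n + 1)) y x
      rw [hx n, hy' n] at h1
      have h3 : (0 : ℝ) ≤ dist y (g • y) := dist_nonneg
      linarith
    linarith

end Pool.Agent.H67.CConj
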